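import Pool.Agent.Helper89.KN.Base
import Pool.Agent.Helper89.KN.Spec

open MeasureTheory Filter Topology
open scoped ENNReal

noncomputable section

namespace KN
namespace SUPart

/-- a product of sums of two measures is the sum over all subsets -/
theorem pi_add {n : ℕ} (μ ν : Measure ℂ) [SigmaFinite μ] [SigmaFinite ν] :
    (Measure.pi fun _ : Fin n => μ + ν) =
      ∑ s ∈ (Finset.univ : Finset (Fin n)).powerset,
        Measure.pi (fun i : Fin n => if i ∈ s then μ else ν) := by
  classical
  have : ∀ s : Finset (Fin n), ∀ i, SigmaFinite ((fun i : Fin n => if i ∈ s then μ else ν) i) := by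
    intro s i
    by_cases h : i ∈ s <;> simp only [h, if_true, if_false] <;> infer_instance
  apply Measure.pi_eq
  intro t ht
  rw [Measure.coe_finsetSum, Finset.sum_apply]
  have h1 : ∀ s : Finset (Fin n), (Measure.pi (fun i : Fin n => if i ∈ s then μ else ν)) (Set.pi Set.univ t)
      = (∏ i ∈ s, μ (t i)) * ∏ i ∈ Finset.univ \ s, ν (t i) := by
    intro s
    have := this s
    rw [Measure.pi_pi]
    rw [← Finset.prod_sdiff (Finset.subset_univ s), mul_comm]
    congr 1
    · apply Finset.prod_congr rfl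
      intro i hi
      simp [hi]
    · apply Finset.prod_congr rfl
      intro i hi
      have : i ∉ s := (Finset.mem_sdiff.1 hi).2
      simp [this]
  simp_rw [h1]
  rw [← Finset.prod_add]
  rfl

/-- sum over an antidiagonal -/
theorem tsum_antidiag (f : ℕ → ℕ → ℝ≥0∞) :
    ∑' n, ∑ p ∈ Finset.HasAntidiagonal.antidiagonal n, f p.1 p.2 = ∑' m, ∑' l, f m l := by
  rw [← ENNReal.tsum_prod (f := f)]
  rw [← (Finset.HasAntidiagonal.sigmaAntidiagonalEquivProd (A := ℕ)).tsum_eq (fun p : ℕ × ℕ => f p.1 p.2)]
  rw [ENNReal.tsum_sigma']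
  apply tsum_congr
  intro n
  rw [← Finset.tsum_subtype]
  rfl

theorem conf_split {n m l : ℕ} (f : Fin m ⊕ Fin l ≃ Fin n) (x : Fin n → ℂ) :
    conf x = conf (fun i => x (f (Sum.inl i))) + conf (fun i => x (f (Sum.inr i))) := by
  unfold conf
  have h : (Finset.univ : Finset (Fin n)).val
      = ((Finset.univ : Finset (Fin m ⊕ Fin l)).map f.toEmbedding).val := by
    rw [Finset.map_univ_equiv]
  rw [h, Finset.map_val, Multiset.map_map, ← Finset.univ_disjSum_univ]
  simp [Finset.disjSum, Multiset.disjSum]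
  exact List.Perm.refl _

theorem ae_mem (S : Set ℂ) (hS : MeasurableSet S) (m : ℕ) :
    ∀ᵐ x ∂(Measure.pi fun _ : Fin m => (volume : Measure ℂ).restrict S), ∀ i, x i ∈ S := by
  rw [ae_all_iff]
  intro i
  have h : ∀ᵐ z ∂((volume : Measure ℂ).restrict S), z ∈ S := ae_restrict_mem hS
  exact (Measure.quasiMeasurePreserving_eval (μ := fun _ : Fin m => (volume : Measure ℂ).restrict S) i).ae h

/-- the measure of the event for one subset -/
theorem one_subset (S₁ S₂ : Set ℂ) (h1 : MeasurableSet S₁) (h2 : MeasurableSet S₂)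
    (hd : Disjoint S₁ S₂) (J : Multiset ℂ → Multiset ℂ → Prop)
    {n m l : ℕ} (s : Finset (Fin n)) (hm : s.card = m) (hl : m + l = n)
    (hJ : MeasurableSet {p : (Fin m → ℂ) × (Fin l → ℂ) | J (conf p.1) (conf p.2)}) :
    (Measure.pi (fun i : Fin n => if i ∈ s then volume.restrict S₁ else volume.restrict S₂))
      {x | J (res S₁ (conf x)) (res S₂ (conf x))} =
    ∫⁻ x, (Measure.pi fun _ : Fin l => volume.restrict S₂) {z | J (conf x) (conf z)}
      ∂(Measure.pi fun _ : Fin m => volume.restrict S₁) := by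
  classical
  -- an equivalence compatible with `s`
  obtain ⟨f, hf1, hf2⟩ : ∃ f : Fin m ⊕ Fin l ≃ Fin n, (∀ i, f (Sum.inl i) ∈ s) ∧
      (∀ i, f (Sum.inr i) ∉ s) := by
    have e1 : Fin m ≃ {i // i ∈ s} := (Fintype.equivFinOfCardEq (by simp [hm])).symm
    have e2 : Fin l ≃ {i // ¬ i ∈ s} := (Fintype.equivFinOfCardEq (by
      rw [Fintype.card_subtype_compl]; simp [hm]; omega)).symm
    refine ⟨(Equiv.sumCongr e1 e2).trans (Equiv.sumCompl (fun i => i ∈ s)), ?_, ?_⟩
    · intro i
      simp
    · intro i
      simpa using (e2 i).2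
  have hsf : ∀ i, SigmaFinite ((fun i : Fin n => if i ∈ s then (volume.restrict S₁ : Measure ℂ)
      else volume.restrict S₂) i) := by
    intro i
    by_cases h : i ∈ s <;> simp only [h, if_true, if_false] <;> infer_instance
  have P1 := measurePreserving_piCongrLeft
    (fun i : Fin n => if i ∈ s then (volume.restrict S₁ : Measure ℂ) else volume.restrict S₂) f
  have hsf' : ∀ i, SigmaFinite ((fun i : Fin m ⊕ Fin l => if f i ∈ s then
      (volume.restrict S₁ : Measure ℂ) else volume.restrict S₂) i) := fun i => hsf (f i)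
  have P2 := measurePreserving_sumPiEquivProdPi_symm
    (fun i : Fin m ⊕ Fin l => if f i ∈ s then (volume.restrict S₁ : Measure ℂ)
      else volume.restrict S₂)
  simp only [hf1, hf2, if_true, if_false] at P2
  have P3 := P1.comp P2
  set F := (MeasurableEquiv.sumPiEquivProdPi (fun _ : Fin m ⊕ Fin l => ℂ)).symm.trans
    (MeasurableEquiv.piCongrLeft (fun _ : Fin n => ℂ) f) with hF
  have P4 : MeasurePreserving F ((Measure.pi fun _ : Fin m => volume.restrict S₁).prod
    (Measure.pi fun _ : Fin l => volume.restrict S₂)) (Measure.pi (fun i : Fin n =>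
      if i ∈ s then (volume.restrict S₁ : Measure ℂ) else volume.restrict S₂)) := P3
  rw [← P4.measure_preimage_equiv]
  have hFc : ∀ p : (Fin m → ℂ) × (Fin l → ℂ), conf (F p) = conf p.1 + conf p.2 := by
    intro p
    rw [conf_split f]
    congr 1
    · congr 1
      funext i
      simp only [hF, MeasurableEquiv.trans_apply]
      rw [MeasurableEquiv.coe_piCongrLeft, Equiv.piCongrLeft_apply_apply]
      rfl
    · congr 1
      funext i
      simp only [hF, MeasurableEquiv.trans_apply]
      rw [MeasurableEquiv.coe_piCongrLeft, Equiv.piCongrLeft_apply_apply]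
      rfl
  have hae : F ⁻¹' {x | J (res S₁ (conf x)) (res S₂ (conf x))} =ᵐ[(Measure.pi fun _ : Fin m =>
      volume.restrict S₁).prod (Measure.pi fun _ : Fin l => volume.restrict S₂)]
      {p : (Fin m → ℂ) × (Fin l → ℂ) | J (conf p.1) (conf p.2)} := by
    have a1 : ∀ᵐ p ∂((Measure.pi fun _ : Fin m => (volume : Measure ℂ).restrict S₁).prod
        (Measure.pi fun _ : Fin l => (volume : Measure ℂ).restrict S₂)), ∀ i, p.1 i ∈ S₁ :=
      Measure.quasiMeasurePreserving_fst.ae (ae_mem S₁ h1 m)
    have a2 : ∀ᵐ p ∂((Measure.pi fun _ : Fin m => (volume : Measure ℂ).restrict S₁).prod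
        (Measure.pi fun _ : Fin l => (volume : Measure ℂ).restrict S₂)), ∀ i, p.2 i ∈ S₂ :=
      Measure.quasiMeasurePreserving_snd.ae (ae_mem S₂ h2 l)
    filter_upwards [a1, a2] with p b1 b2
    have c1 : res S₁ (conf (F p)) = conf p.1 := by
      rw [hFc, res_add, res_eq_self, res_eq_zero, add_zero]
      · intro z hz hz1
        obtain ⟨i, rfl⟩ := mem_conf.1 hz
        exact (Set.disjoint_left.1 hd hz1) (b2 i)
      · intro z hz
        obtain ⟨i, rfl⟩ := mem_conf.1 hz
        exact b1 i
    have c2 : res S₂ (conf (F p)) = conf p.2 := by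
      rw [hFc, res_add, res_eq_zero, res_eq_self, zero_add]
      · intro z hz
        obtain ⟨i, rfl⟩ := mem_conf.1 hz
        exact b2 i
      · intro z hz hz1
        obtain ⟨i, rfl⟩ := mem_conf.1 hz
        exact (Set.disjoint_left.1 hd (b1 i)) hz1
    apply propext
    show J (res S₁ (conf (F p))) (res S₂ (conf (F p))) ↔ J (conf p.1) (conf p.2)
    rw [c1, c2]
  rw [measure_congr hae, Measure.prod_apply hJ]
  rfl

theorem SUP : S_SUP := by
  classical
  intro S₁ S₂ h1 h2 hd hf1 hf2 J hJ
  unfold PP prob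
  set a : ℝ := (volume S₁).toReal with ha
  set b : ℝ := (volume S₂).toReal with hb
  have hvol : (volume (S₁ ∪ S₂)).toReal = a + b := by
    rw [measure_union hd h2, ENNReal.toReal_add hf1 hf2]
  have hres : (volume : Measure ℂ).restrict (S₁ ∪ S₂) = volume.restrict S₁ + volume.restrict S₂ :=
    Measure.restrict_union hd h2
  set G : ℕ → ℕ → ℝ≥0∞ := fun m l =>
    ∫⁻ x, (Measure.pi fun _ : Fin l => volume.restrict S₂) {z | J (conf x) (conf z)}
      ∂(Measure.pi fun _ : Fin m => volume.restrict S₁) with hG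
  -- left side
  have hL : ∀ n : ℕ, (Measure.pi fun _ : Fin n => (volume : Measure ℂ).restrict (S₁ ∪ S₂))
      {x | J (res S₁ (conf x)) (res S₂ (conf x))} =
      ∑ p ∈ Finset.HasAntidiagonal.antidiagonal n, (n.choose p.1 : ℝ≥0∞) * G p.1 p.2 := by
    intro n
    rw [hres, pi_add, Measure.coe_finsetSum, Finset.sum_apply]
    have : ∀ s ∈ (Finset.univ : Finset (Fin n)).powerset,
        (Measure.pi (fun i : Fin n => if i ∈ s then (volume : Measure ℂ).restrict S₁
          else volume.restrict S₂)) {x | J (res S₁ (conf x)) (res S₂ (conf x))} =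
        (fun m => G m (n - m)) s.card := by
      intro s _
      have hc : s.card ≤ n := by simpa using Finset.card_le_univ s
      exact one_subset S₁ S₂ h1 h2 hd J s rfl (by omega) (hJ _ _)
    rw [Finset.sum_congr rfl this, Finset.sum_powerset_apply_card (fun m => G m (n - m)), Finset.Nat.sum_antidiagonal_eq_sum_range_succ
      (fun i j => (n.choose i : ℝ≥0∞) * G i j)]
    simp
  simp_rw [hvol]
  have hL2 : ∀ n : ℕ, ENNReal.ofReal (Real.exp (-(a + b)) / n.factorial) *
      (Measure.pi fun _ : Fin n => (volume : Measure ℂ).restrict (S₁ ∪ S₂))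
      {x | J (res S₁ (conf x)) (res S₂ (conf x))} =
      ∑ p ∈ Finset.HasAntidiagonal.antidiagonal n, (fun m l => ENNReal.ofReal (Real.exp (-a) / m.factorial) *
        (ENNReal.ofReal (Real.exp (-b) / l.factorial) * G m l)) p.1 p.2 := by
    intro n
    rw [hL, Finset.mul_sum]
    apply Finset.sum_congr rfl
    rintro ⟨m, l⟩ hp
    have hp' : m + l = n := by simpa using hp
    simp only
    rw [← mul_assoc, ← mul_assoc]
    congr 1
    rw [← ENNReal.ofReal_natCast, ← ENNReal.ofReal_mul (by positivity),
      ← ENNReal.ofReal_mul (by positivity)]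
    congr 1
    have e0 : ((m + l).choose m : ℝ) * m.factorial * l.factorial = (m + l).factorial := by
      have := Nat.add_choose_mul_factorial_mul_factorial m l
      rw [← Nat.choose_symm_add] at this
      exact_mod_cast this
    rw [← hp', neg_add, Real.exp_add]
    have e1 : ((m + l).factorial : ℝ) ≠ 0 := by positivity
    have e2 : (m.factorial : ℝ) ≠ 0 := by positivity
    have e3 : (l.factorial : ℝ) ≠ 0 := by positivity
    field_simp
    rw [← e0]
  rw [tsum_congr hL2, tsum_antidiag (fun m l => ENNReal.ofReal (Real.exp (-a) / m.factorial) *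
        (ENNReal.ofReal (Real.exp (-b) / l.factorial) * G m l))]
  apply tsum_congr
  intro m
  rw [ENNReal.tsum_mul_left]
  congr 1
  rw [lintegral_tsum]
  · apply tsum_congr
    intro l
    rw [lintegral_const_mul]
    exact measurable_measure_prodMk_left (hJ m l)
  · intro l
    exact ((measurable_measure_prodMk_left (hJ m l)).const_mul _).aemeasurable

end SUPart

theorem sup_thm : S_SUP := SUPart.SUP

end KN
end
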